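import Pool.Agent.Q293.HF.Stm

/-!
Project HF (helper293), job FINAL: assembly.
-/

set_option autoImplicit false

open Topology Filter
open scoped LinearAlgebra.Projectivization

namespace Pool.Agent.Q224.HF.FINAL

open Pool.Agent.Q293.HF Pool.Agent.Helper922.HB

theorem final (h1 : S_PHI) (h2 : S_CL) (h3 : S_RG) (h4 : S_LPA) (h5 : S_LPI) (h6 : S_IND)
    (h7 : S_HT) (h8 : S_FB) (h9 : S_CONN) : S_FINAL := by
  obtain ⟨n, φ, h⟩ := h1
  refine ⟨n, XX φ, ⟨h2 n φ h, ?_⟩, h9 n φ h, ?_, ?_, ?_⟩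
  · -- local parametrisations
    intro p hp
    rcases (h3 n φ h).1 ⟨p, hp⟩ with ⟨e, he⟩ | ⟨e, he⟩
    · obtain ⟨P, v, hv, hpt, -⟩ := h4 n φ h e
      refine ⟨P, v, hv, ?_⟩
      rw [hpt, he]
    · obtain ⟨P, v, hv, hpt, -⟩ := h5 n φ h e
      refine ⟨P, v, hv, ?_⟩
      rw [hpt, he]
  · -- submersive outside of the fibre over zero
    intro p hp hp0 P' v' hv' hpt'
    rcases (h3 n φ h).1 ⟨p, hp⟩ with ⟨e, he⟩ | ⟨e, he⟩
    · obtain ⟨P, v, hv, hpt, hder⟩ := h4 n φ h e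
      have hp1 : p.1 = e.2.2 ^ 2 - e.2.1 ^ 3 := by
        have h10 := congrArg (fun q : XX φ => (q : ℂ × ℙ ℂ (Fin 3 × Fin n → ℂ)).1) he
        exact h10.symm
      refine h6 _ 3 (XX φ) P P' v v' hv hv' ?_ ?_
      · rw [hpt, hpt', he]
      · by_cases hy : e.2.2 = 0
        · have hx : e.2.1 ≠ 0 := by
            intro hx
            apply hp0
            rw [hp1, hx, hy]
            norm_num
          refine ⟨![0, 1, 0], ?_⟩
          rw [hder]
          simp [hy, hx]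
        · refine ⟨![0, 0, 1], ?_⟩
          rw [hder]
          simp [hy]
    · obtain ⟨P, v, hv, hpt, hder⟩ := h5 n φ h e
      refine h6 _ 3 (XX φ) P P' v v' hv hv' ?_ hder
      rw [hpt, hpt', he]
  · exact h8 _ _ _ (fun y => h7 n φ h y)
  · -- the critical point
    obtain ⟨P, v, hv, hpt, hder⟩ := h4 n φ h (⟨1, one_ne_zero⟩, (0, 0))
    refine ⟨(ptA h (⟨1, one_ne_zero⟩, (0, 0))).1, (ptA h (⟨1, one_ne_zero⟩, (0, 0))).2, ?_, ?_⟩
    · change (0 : ℂ) ^ 2 - (0 : ℂ) ^ 3 = 0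
      norm_num
    · intro P' v' hv' hpt' k
      by_contra hk
      obtain ⟨k', hk'⟩ := h6 _ 3 (XX φ) P' P v' v hv' hv (by rw [hpt, hpt']) ⟨k, hk⟩
      apply hk'
      rw [hder]
      simp

end Pool.Agent.Q224.HF.FINAL
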