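import Pool.Agent.Helper922.HB.Defs

/-!
Project HF (helper293), job IND: two parametrisations of the same point.
-/

set_option autoImplicit false

open Topology Filter Asymptotics
open scoped LinearAlgebra.Projectivization

namespace Pool.Agent.Q224.HF.IND

open Pool.Agent.Helper922.HB

/-- The lower estimate given by an injective differential. -/
lemma low {E F : Type*} [NormedAddCommGroup E] [NormedSpace ℂ E] [FiniteDimensional ℂ E]
    [NormedAddCommGroup F] [NormedSpace ℂ F] {f : E → F} {f' : E →L[ℂ] F} {x : E}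
    (hf : HasFDerivAt f f' x) (hinj : ∀ h, f' h = 0 → h = 0) :
    ∃ C : ℝ, 0 < C ∧ ∀ᶠ y in 𝓝 x, ‖y - x‖ ≤ C * ‖f y - f x‖ := by
  have hker : LinearMap.ker (f' : E →ₗ[ℂ] F) = ⊥ := by
    rw [LinearMap.ker_eq_bot']
    intro m hm
    exact hinj m hm
  obtain ⟨K, hK, hKf⟩ := LinearMap.exists_antilipschitzWith (f' : E →ₗ[ℂ] F) hker
  have h1 : ∀ m : E, ‖m‖ ≤ K * ‖f' m‖ := by
    intro m
    have h2 := hKf.le_mul_dist m 0
    rw [map_zero, dist_zero_right, dist_zero_right] at h2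
    exact h2
  have hK0 : (0 : ℝ) < K := by exact_mod_cast hK
  have h3 := (hasFDerivAt_iff_isLittleO.mp hf)
  have h4 := isLittleO_iff.mp h3 (show (0 : ℝ) < 1 / (2 * K) by positivity)
  refine ⟨2 * K, by positivity, ?_⟩
  filter_upwards [h4] with y hy
  have h5 : ‖f' (y - x)‖ ≤ ‖f y - f x‖ + 1 / (2 * K) * ‖y - x‖ := by
    have h6 : f' (y - x) = (f y - f x) - (f y - f x - f' (y - x)) := by abel
    rw [h6]
    exact (norm_sub_le _ _).trans (by linarith)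
  have h7 := h1 (y - x)
  have h8 : K * ‖f' (y - x)‖ ≤ K * (‖f y - f x‖ + 1 / (2 * K) * ‖y - x‖) :=
    mul_le_mul_of_nonneg_left h5 hK0.le
  have h9 : (K : ℝ) * (‖f y - f x‖ + 1 / (2 * K) * ‖y - x‖) = K * ‖f y - f x‖ + ‖y - x‖ / 2 := by
    field_simp
  rw [h9] at h8
  linarith

/-- If `a(u) = a'(w)`, `ψ(u) = ψ'(w)` for some `w` near `v'`, for all `u` near `v`, the differential of
`ψ'` at `v'` is injective and that of `a'` is zero, then that of `a` is zero. -/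
lemma key {E F : Type*} [NormedAddCommGroup E] [NormedSpace ℂ E] [FiniteDimensional ℂ E]
    [NormedAddCommGroup F] [NormedSpace ℂ F] {a a' : E → ℂ} {ψ ψ' : E → F} {v v' : E}
    {D D' : E →L[ℂ] F} (hψ : HasFDerivAt ψ D v) (hψ' : HasFDerivAt ψ' D' v')
    (hinj : ∀ h, D' h = 0 → h = 0) (ha' : HasFDerivAt a' (0 : E →L[ℂ] ℂ) v')
    (h0 : a v = a' v' ∧ ψ v = ψ' v')
    (hT : ∀ W ∈ 𝓝 v', ∀ᶠ u in 𝓝 v, ∃ w ∈ W, a u = a' w ∧ ψ u = ψ' w) :
    HasFDerivAt a (0 : E →L[ℂ] ℂ) v := by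
  obtain ⟨C, hC, hlow⟩ := low hψ' hinj
  obtain ⟨C', hC', hup⟩ := (hψ.isBigO_sub).exists_pos
  have hup2 := hup.bound
  rw [hasFDerivAt_iff_isLittleO, isLittleO_iff]
  intro ε hε
  have h1 := hasFDerivAt_iff_isLittleO.mp ha'
  have h2 := isLittleO_iff.mp h1 (show (0 : ℝ) < ε / (C * C') by positivity)
  have h3 : {w | ‖w - v'‖ ≤ C * ‖ψ' w - ψ' v'‖} ∩
      {w | ‖a' w - a' v' - (0 : E →L[ℂ] ℂ) (w - v')‖ ≤ ε / (C * C') * ‖w - v'‖} ∈ 𝓝 v' :=
    inter_mem hlow h2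
  filter_upwards [hT _ h3, hup2] with u hu hu2
  obtain ⟨w, ⟨hw1, hw2⟩, hw3, hw4⟩ := hu
  simp only [Set.mem_ofPred_eq, zero_apply, sub_zero] at hw1 hw2
  simp only [zero_apply, sub_zero]
  rw [hw3, h0.1]
  rw [hw4, h0.2] at hu2
  calc ‖a' w - a' v'‖ ≤ ε / (C * C') * ‖w - v'‖ := hw2
    _ ≤ ε / (C * C') * (C * ‖ψ' w - ψ' v'‖) := by gcongr
    _ ≤ ε / (C * C') * (C * (C' * ‖u - v‖)) := by gcongr
    _ = ε * ‖u - v‖ := by field_simp

end Pool.Agent.Q224.HF.IND
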