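import Pool.Agent.Q293.HF.Stm
import Pool.Agent.Q224.HF.INDa

/-!
Project HF (helper293), job IND: two parametrisations of the same point differ by a holomorphic change
of coordinates, as far as the differential of the first coordinate is concerned.
-/

set_option autoImplicit false

open Topology Filter Asymptotics
open scoped LinearAlgebra.Projectivization

namespace Pool.Agent.Q224.HF.IND

open Pool.Agent.Q293.HF Pool.Agent.Helper922.HB

/-- Equality of points in projective space. -/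
lemma mk_ratio {ι : Type} [Fintype ι] (Y Z : ι → ℂ) (hY : Y ≠ 0) (hZ : Z ≠ 0)
    (h : Projectivization.mk ℂ Y hY = Projectivization.mk ℂ Z hZ) :
    (∀ i, Z i ≠ 0 → Y i ≠ 0) ∧ ∀ i j, Y j / Y i = Z j / Z i := by
  obtain ⟨a, ha⟩ := (Projectivization.mk_eq_mk_iff ℂ Y Z hY hZ).mp h
  have h1 : ∀ i, Y i = (a : ℂ) * Z i := by
    intro i
    rw [← ha]
    rfl
  refine ⟨fun i hi => ?_, fun i j => ?_⟩
  · rw [h1]
    exact mul_ne_zero a.ne_zero hi
  · rw [h1 i, h1 j]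
    exact mul_div_mul_left _ _ a.ne_zero

/-- The chart. -/
lemma chart {ι : Type} [Fintype ι] {d : ℕ} {a : (Fin d → ℂ) → ℂ} {φ : (Fin d → ℂ) → (ι → ℂ)}
    {v : Fin d → ℂ} (ha : DifferentiableAt ℂ a v) (hφ : DifferentiableAt ℂ φ v) (i : ι)
    (hi : φ v i ≠ 0) :
    ∃ D : (Fin d → ℂ) →L[ℂ] (ℂ × (ι → ℂ)),
      HasFDerivAt (fun w => (a w, fun j => φ w j / φ w i)) D v ∧
      ∀ h, D h = 0 → fderiv ℂ a v h = 0 ∧ ∃ c : ℂ, fderiv ℂ φ v h = c • φ v := by
  have hφj : ∀ j, DifferentiableAt ℂ (fun w => φ w j) v := fun j =>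
    (differentiableAt_pi.mp hφ) j
  have hq : ∀ j, DifferentiableAt ℂ (fun w => φ w j / φ w i) v := by
    intro j
    simp only [div_eq_mul_inv]
    exact (hφj j).mul ((hφj i).inv hi)
  refine ⟨(fderiv ℂ a v).prod (ContinuousLinearMap.pi fun j => fderiv ℂ (fun w => φ w j / φ w i) v),
    ha.hasFDerivAt.prodMk (hasFDerivAt_pi.mpr fun j => (hq j).hasFDerivAt), ?_⟩
  intro h hh
  have h1 : fderiv ℂ a v h = 0 := congrArg Prod.fst hh
  have h2 : ∀ j, fderiv ℂ (fun w => φ w j / φ w i) v h = 0 := fun j =>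
    congrFun (congrArg Prod.snd hh) j
  refine ⟨h1, fderiv ℂ φ v h i / φ v i, ?_⟩
  have hcomp : ∀ j, fderiv ℂ φ v h j = fderiv ℂ (fun w => φ w j) v h := by
    intro j
    have h3 := (hasFDerivAt_pi'.mp hφ.hasFDerivAt j).fderiv
    rw [h3]
    rfl
  funext j
  have h4 : HasFDerivAt (fun w => (φ w j / φ w i) * φ w i)
      ((φ v j / φ v i) • fderiv ℂ (fun w => φ w i) v +
        φ v i • fderiv ℂ (fun w => φ w j / φ w i) v) v :=
    (hq j).hasFDerivAt.mul (hφj i).hasFDerivAt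
  have h5 : (fun w => (φ w j / φ w i) * φ w i) =ᶠ[𝓝 v] fun w => φ w j := by
    have h6 : ∀ᶠ w in 𝓝 v, φ w i ≠ 0 := (hφj i).continuousAt.eventually_ne hi
    filter_upwards [h6] with w hw
    exact div_mul_cancel₀ _ hw
  have h7 := (h4.congr_of_eventuallyEq h5.symm).fderiv
  rw [hcomp j, h7]
  simp only [Pi.smul_apply, smul_eq_mul, add_apply, smul_apply, h2 j, mul_zero, add_zero, hcomp i]
  ring

theorem ind : S_IND := by
  intro ι _ d X P P' v v' hv hv' hpt hk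
  by_contra hcon
  push Not at hcon
  -- differentiability
  have hPa : DifferentiableAt ℂ P.a v := (P.holo_a v hv).differentiableAt (P.isOpen_V.mem_nhds hv)
  have hPφ : DifferentiableAt ℂ P.φ v := (P.holo_φ v hv).differentiableAt (P.isOpen_V.mem_nhds hv)
  have hPa' : DifferentiableAt ℂ P'.a v' :=
    (P'.holo_a v' hv').differentiableAt (P'.isOpen_V.mem_nhds hv')
  have hPφ' : DifferentiableAt ℂ P'.φ v' :=
    (P'.holo_φ v' hv').differentiableAt (P'.isOpen_V.mem_nhds hv')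
  -- the equality of the points
  have hpa : P.a v = P'.a v' := congrArg Prod.fst hpt
  have hpφ : Projectivization.mk ℂ (P.φ v) (P.φ_ne v hv) =
      Projectivization.mk ℂ (P'.φ v') (P'.φ_ne v' hv') := congrArg Prod.snd hpt
  obtain ⟨i, hi⟩ : ∃ i, P'.φ v' i ≠ 0 := by
    by_contra h
    push Not at h
    exact P'.φ_ne v' hv' (funext h)
  have hi' : P.φ v i ≠ 0 := (mk_ratio _ _ _ _ hpφ).1 i hi
  obtain ⟨D, hD, -⟩ := chart hPa hPφ i hi'
  obtain ⟨D', hD', hinj⟩ := chart hPa' hPφ' i hi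
  have hzero : fderiv ℂ P'.a v' = 0 := by
    ext h
    exact hcon _
  have ha0 : HasFDerivAt P'.a (0 : (Fin d → ℂ) →L[ℂ] ℂ) v' := by
    rw [← hzero]
    exact hPa'.hasFDerivAt
  have hT : ∀ W ∈ 𝓝 v', ∀ᶠ u in 𝓝 v, ∃ w ∈ W, P.a u = P'.a w ∧
      (fun w => (P.a w, fun j => P.φ w j / P.φ w i)) u =
        (fun w => (P'.a w, fun j => P'.φ w j / P'.φ w i)) w := by
    intro W hW
    have h1 : (fun w : P'.V => (⟨(P'.a w, Projectivization.mk ℂ (P'.φ w) (P'.φ_ne w w.2)),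
        P'.mem w w.2⟩ : X)) '' (Subtype.val ⁻¹' W) ∈
        𝓝 ((⟨(P'.a v', Projectivization.mk ℂ (P'.φ v') (P'.φ_ne v' hv')), P'.mem v' hv'⟩ : X)) := by
      have h2 : (Subtype.val ⁻¹' W : Set P'.V) ∈ 𝓝 (⟨v', hv'⟩ : P'.V) :=
        continuous_subtype_val.continuousAt.preimage_mem_nhds hW
      exact P'.openEmbedding.isOpenMap.image_mem_nhds h2
    have h3 : (⟨(P'.a v', Projectivization.mk ℂ (P'.φ v') (P'.φ_ne v' hv')), P'.mem v' hv'⟩ : X) =
        ⟨(P.a v, Projectivization.mk ℂ (P.φ v) (P.φ_ne v hv)), P.mem v hv⟩ :=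
      Subtype.ext hpt.symm
    rw [h3] at h1
    have h4 : ∀ᶠ x : P.V in 𝓝 (⟨v, hv⟩ : P.V),
        (⟨(P.a x, Projectivization.mk ℂ (P.φ x) (P.φ_ne x x.2)), P.mem x x.2⟩ : X) ∈
        (fun w : P'.V => (⟨(P'.a w, Projectivization.mk ℂ (P'.φ w) (P'.φ_ne w w.2)),
          P'.mem w w.2⟩ : X)) '' (Subtype.val ⁻¹' W) :=
      P.openEmbedding.continuous.continuousAt.preimage_mem_nhds h1
    have h5 := P.isOpen_V.isOpenEmbedding_subtypeVal.map_nhds_eq ⟨v, hv⟩
    have h6 : 𝓝 v = map Subtype.val (𝓝 (⟨v, hv⟩ : P.V)) := h5.symm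
    rw [h6, eventually_map]
    filter_upwards [h4] with x hx
    obtain ⟨w, hw, hwx⟩ := hx
    have h7 := congrArg Subtype.val hwx
    have h8 : P'.a w = P.a x := congrArg Prod.fst h7
    have h9 : Projectivization.mk ℂ (P'.φ w) (P'.φ_ne w w.2) =
        Projectivization.mk ℂ (P.φ x) (P.φ_ne x x.2) := congrArg Prod.snd h7
    refine ⟨w, hw, h8.symm, ?_⟩
    have h10 := (mk_ratio _ _ _ _ h9).2 i
    simp only [Prod.mk.injEq]
    exact ⟨h8.symm, funext fun j => (h10 j).symm⟩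
  have hfin := key hD hD' (fun h hh => P'.immersion v' hv' h (hinj h hh).1 (hinj h hh).2) ha0
    ⟨hpa, by
      have h10 := (mk_ratio _ _ _ _ hpφ).2 i
      simp only [Prod.mk.injEq]
      exact ⟨hpa, funext fun j => h10 j⟩⟩ hT
  obtain ⟨k, hk⟩ := hk
  apply hk
  rw [hfin.fderiv]
  rfl

end Pool.Agent.Q224.HF.IND
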