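import Pool.Agent.Q224.HF.Par

/-!
Project HF (helper293), job LPA: the local parametrisations in the affine part.
-/

set_option autoImplicit false

open Topology Filter
open scoped LinearAlgebra.Projectivization

namespace Pool.Agent.Q224.HF.LPA

open Pool.Agent.Q293.HF Pool.Agent.Helper922.HB Pool.Agent.Q224.HF.Par

/-- The coordinates `(1, x, y)`. -/
def Xa (v : Fin 3 → ℂ) : Fin 3 → ℂ := ![1, v 1, v 2]

lemma Xa_ne (v : Fin 3 → ℂ) : Xa v ≠ 0 := fun h0 => one_ne_zero (congrFun h0 0)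

lemma Xa_diff (v : Fin 3 → ℂ) (i : Fin 3) : DifferentiableAt ℂ (fun w => Xa w i) v := by
  fin_cases i
  · exact differentiableAt_const (1 : ℂ)
  · exact differentiableAt_apply (1 : Fin 3) v
  · exact differentiableAt_apply (2 : Fin 3) v

lemma Xa_der (v k : Fin 3 → ℂ) (i : Fin 3) :
    HasDerivAt (fun s : ℂ => Xa (v + s • k) i) ((![0, k 1, k 2] : Fin 3 → ℂ) i) 0 := by
  have hline : HasDerivAt (fun s : ℂ => v + s • k) k 0 := by
    simpa using ((hasDerivAt_id (0 : ℂ)).smul_const k).const_add v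
  fin_cases i
  · exact hasDerivAt_const (0 : ℂ) (1 : ℂ)
  · exact hasDerivAt_pi.mp hline 1
  · exact hasDerivAt_pi.mp hline 2

theorem lpa (h : S_OA) (h1 : S_INJ) : S_LPA := by
  intro n φ hE e
  obtain ⟨hcont, hopen⟩ := h n φ hE
  obtain ⟨V, hVdef⟩ : ∃ V : Set (Fin 3 → ℂ), V = {v | ‖v 0 - e.1.1‖ < ‖e.1.1‖ / 4} := ⟨_, rfl⟩
  have hmemV : ∀ v : Fin 3 → ℂ, v ∈ V ↔ ‖v 0 - e.1.1‖ < ‖e.1.1‖ / 4 := by
    intro v
    rw [hVdef]
    rfl
  have hVo : IsOpen V := by
    rw [hVdef]
    exact isOpen_lt (by fun_prop) continuous_const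
  have hv0 : ∀ v ∈ V, v 0 ≠ 0 := fun v hv => ball_ne ((hmemV v).mp hv)
  let m : V → Cs × (ℂ × ℂ) := fun v => (⟨v.1 0, hv0 v.1 v.2⟩, (v.1 1, v.1 2))
  have hmc : Continuous m := by
    apply Continuous.prodMk
    · exact Continuous.subtype_mk ((continuous_apply 0).comp continuous_subtype_val) _
    · exact ((continuous_apply 1).comp continuous_subtype_val).prodMk
        ((continuous_apply 2).comp continuous_subtype_val)
  have hmo : IsOpenMap m := by
    refine open_m V hVo m (fun y => (y.1.1, y.2)) ?_ ?_ (fun v => rfl)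
    · exact (continuous_subtype_val.comp continuous_fst).prodMk continuous_snd
    · intro y y' hy
      have h2 := congrArg Prod.fst hy
      have h3 := congrArg Prod.snd hy
      exact Prod.ext (Subtype.ext h2) h3
  have hφd : ∀ v ∈ V, DifferentiableAt ℂ (fun w => Ph φ (w 0) (Xa w)) v := fun v hv =>
    ph_diff hE (hv0 v hv) (Xa_diff v)
  have hmi : Function.Injective (fun v : V => ptA hE (m v)) := by
    intro v v' hvv
    have h2 := congrArg (fun q : XX φ => (q : ℂ × ℙ ℂ (Fin 3 × Fin n → ℂ)).2) hvv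
    have h3 : Projectivization.mk ℂ (Ph φ (v.1 0) (Xa v.1)) (Ph_ne hE (hv0 v.1 v.2) (Xa_ne v.1)) =
        Projectivization.mk ℂ (Ph φ (v'.1 0) (Xa v'.1)) (Ph_ne hE (hv0 v'.1 v'.2) (Xa_ne v'.1)) := h2
    obtain ⟨a, ha⟩ := (Projectivization.mk_eq_mk_iff ℂ _ _ _ _).mp h3
    obtain ⟨k, l, hl, hk, hX⟩ := (h1 n φ hE (v'.1 0) (v.1 0) (Xa v'.1) (Xa v.1) (hv0 v'.1 v'.2)
      (hv0 v.1 v.2) (Xa_ne v'.1) (Xa_ne v.1)).mp ⟨(a : ℂ), a.ne_zero, ha.symm⟩
    have hk0 : k = 0 := two_zpow ((hmemV v'.1).mp v'.2) ((hmemV v.1).mp v.2) k hk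
    subst hk0
    have hl1 : l = 1 := by
      have h4 := hX 0
      simpa [Xa, aa] using h4.symm
    subst hl1
    have h5 := hX 1
    have h6 := hX 2
    apply Subtype.ext
    funext i
    fin_cases i
    · simpa using hk
    · simpa [Xa] using h5
    · simpa [Xa] using h6
  refine ⟨{ V := V
            a := fun v => v 2 ^ 2 - v 1 ^ 3
            φ := fun v => Ph φ (v 0) (Xa v)
            isOpen_V := hVo
            holo_a := ?_
            holo_φ := fun v hv => (hφd v hv).differentiableWithinAt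
            φ_ne := fun v hv => Ph_ne hE (hv0 v hv) (Xa_ne v)
            mem := fun v hv => (ptA hE (m ⟨v, hv⟩)).2
            openEmbedding := ?_
            immersion := ?_ }, ![e.1.1, e.2.1, e.2.2], ?_, ?_, ?_⟩
  · fun_prop
  · exact Topology.IsOpenEmbedding.of_continuous_injective_isOpenMap (hcont.comp hmc) hmi
      (hopen.comp hmo)
  · intro v hv k _ hc
    obtain ⟨c, hc⟩ := hc
    have hline := ph_line hE (hv0 v hv) (Xa_diff v) ![0, k 1, k 2] (Xa_der v k)
    have hco : ∀ (i : Fin 3) (j : Fin n), (![0, k 1, k 2] : Fin 3 → ℂ) i * φ i (v 0) j +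
        Xa v i * (k 0 * deriv (φ i) (v 0) j) = c * (Xa v i * φ i (v 0) j) := by
      intro i j
      rw [← hline i j, hc]
      rfl
    have hk0 : k 0 = 0 := by
      by_contra hk
      apply hE.tan 0 (v 0) (hv0 v hv) (c / k 0)
      funext j
      have h2 := hco 0 j
      simp only [Xa, Matrix.cons_val_zero, zero_mul, zero_add, one_mul] at h2
      simp only [Pi.smul_apply, smul_eq_mul]
      field_simp
      linear_combination h2
    have hc0 : c = 0 := by
      by_contra hcn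
      apply hE.ne 0 (v 0) (hv0 v hv)
      funext j
      have h2 := hco 0 j
      simp only [Xa, Matrix.cons_val_zero, zero_mul, zero_add, one_mul, hk0] at h2
      exact (mul_eq_zero.mp h2.symm).resolve_left hcn
    have hk12 : ∀ i : Fin 3, (![0, k 1, k 2] : Fin 3 → ℂ) i = 0 := by
      intro i
      by_contra hcn
      apply hE.ne i (v 0) (hv0 v hv)
      funext j
      have h2 := hco i j
      simp only [hk0, hc0, zero_mul, mul_zero, add_zero] at h2
      exact (mul_eq_zero.mp h2).resolve_left hcn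
    funext i
    fin_cases i
    · exact hk0
    · simpa using hk12 1
    · simpa using hk12 2
  · rw [hmemV]
    have h2 : e.1.1 ≠ 0 := e.1.2
    have h3 : 0 < ‖e.1.1‖ := norm_pos_iff.mpr h2
    simp only [Matrix.cons_val_zero, sub_self, norm_zero]
    linarith
  · rfl
  · intro k
    have hline : HasDerivAt (fun s : ℂ => (![e.1.1, e.2.1, e.2.2] : Fin 3 → ℂ) + s • k) k 0 := by
      simpa using ((hasDerivAt_id (0 : ℂ)).smul_const k).const_add (![e.1.1, e.2.1, e.2.2] : Fin 3 → ℂ)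
    have hda : DifferentiableAt ℂ (fun v : Fin 3 → ℂ => v 2 ^ 2 - v 1 ^ 3)
        (![e.1.1, e.2.1, e.2.2] : Fin 3 → ℂ) := by fun_prop
    have hF' : HasFDerivAt (fun v : Fin 3 → ℂ => v 2 ^ 2 - v 1 ^ 3)
        (fderiv ℂ (fun v : Fin 3 → ℂ => v 2 ^ 2 - v 1 ^ 3) (![e.1.1, e.2.1, e.2.2] : Fin 3 → ℂ))
        ((fun s : ℂ => (![e.1.1, e.2.1, e.2.2] : Fin 3 → ℂ) + s • k) 0) := by
      simpa using hda.hasFDerivAt
    have h2 := hF'.comp_hasDerivAt (0 : ℂ) hline
    have h3 := ((hasDerivAt_pi.mp hline 2).pow 2).sub ((hasDerivAt_pi.mp hline 1).pow 3)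
    have h4 := h2.unique h3
    refine h4.trans ?_
    simp

end Pool.Agent.Q224.HF.LPA
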