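import Pool.Agent.Q224.HF.Par

/-!
Project HF (helper293), job LPI: the local parametrisations near the section at infinity.
-/

set_option autoImplicit false

open Topology Filter
open scoped LinearAlgebra.Projectivization

namespace Pool.Agent.Q224.HF.LPI

open Pool.Agent.Q293.HF Pool.Agent.Helper922.HB Pool.Agent.Q224.HF.Par

/-- The coordinates `(w³, w, √(1 + t w⁶))`. -/
noncomputable def Xi (v : Fin 3 → ℂ) : Fin 3 → ℂ := vecI (v 1) (v 2)

lemma slit {v : Fin 3 → ℂ} (hv : ‖v 1 * v 2 ^ 6‖ < 1 / 2) :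
    1 + v 1 * v 2 ^ 6 ∈ Complex.slitPlane :=
  Complex.mem_slitPlane_of_norm_lt_one (by linarith)

lemma Xi_diff {v : Fin 3 → ℂ} (hv : ‖v 1 * v 2 ^ 6‖ < 1 / 2) (i : Fin 3) :
    DifferentiableAt ℂ (fun w => Xi w i) v := by
  have h1 : DifferentiableAt ℂ (fun w : Fin 3 → ℂ => w 1) v := differentiableAt_apply (1 : Fin 3) v
  have h2 : DifferentiableAt ℂ (fun w : Fin 3 → ℂ => w 2) v := differentiableAt_apply (2 : Fin 3) v
  fin_cases i
  · exact h2.pow 3
  · exact h2
  · have h3 : DifferentiableAt ℂ (fun w : Fin 3 → ℂ => 1 + w 1 * w 2 ^ 6) v :=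
      (h1.mul (h2.pow 6)).const_add 1
    exact h3.cpow (differentiableAt_const (1 / 2 : ℂ)) (slit hv)

lemma Xi_ne2 {v : Fin 3 → ℂ} (hv : ‖v 1 * v 2 ^ 6‖ < 1 / 2) : Xi v 2 ≠ 0 := by
  intro h0
  have h2 := sq_ne ⟨(v 1, v 2), hv⟩
  have h1 : ((1 + v 1 * v 2 ^ 6) ^ (1 / 2 : ℂ)) = 0 := h0
  simp only at h2
  rw [h1] at h2
  have h3 : v 1 * v 2 ^ 6 = -1 := by linear_combination -h2
  rw [h3] at hv
  norm_num at hv

lemma Xi_der {v : Fin 3 → ℂ} (hv : ‖v 1 * v 2 ^ 6‖ < 1 / 2) (k : Fin 3 → ℂ) : ∃ D : ℂ, ∀ i : Fin 3,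
    HasDerivAt (fun s : ℂ => Xi (v + s • k) i) ((![3 * v 2 ^ 2 * k 2, k 2, D] : Fin 3 → ℂ) i) 0 := by
  have hline : HasDerivAt (fun s : ℂ => v + s • k) k 0 := by
    simpa using ((hasDerivAt_id (0 : ℂ)).smul_const k).const_add v
  have h2 : HasDerivAt (fun s : ℂ => (v + s • k) 2) (k 2) 0 := hasDerivAt_pi.mp hline 2
  have h3 : HasFDerivAt (fun w => Xi w 2) (fderiv ℂ (fun w => Xi w 2) v)
      ((fun s : ℂ => v + s • k) 0) := by
    simpa using (Xi_diff hv 2).hasFDerivAt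
  refine ⟨fderiv ℂ (fun w => Xi w 2) v k, ?_⟩
  intro i
  fin_cases i
  · exact (h2.pow 3).congr_deriv (by simp)
  · exact h2
  · exact h3.comp_hasDerivAt (0 : ℂ) hline

theorem lpi (h : S_OI) (h1 : S_FI) : S_LPI := by
  intro n φ hE e
  obtain ⟨hcont, hopen⟩ := h n φ hE
  obtain ⟨V, hVdef⟩ : ∃ V : Set (Fin 3 → ℂ),
    V = {v | ‖v 0 - e.1.1‖ < ‖e.1.1‖ / 4 ∧ ‖v 1 * v 2 ^ 6‖ < 1 / 2} := ⟨_, rfl⟩
  have hmemV : ∀ v : Fin 3 → ℂ, v ∈ V ↔ ‖v 0 - e.1.1‖ < ‖e.1.1‖ / 4 ∧ ‖v 1 * v 2 ^ 6‖ < 1 / 2 := by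
    intro v
    rw [hVdef]
    rfl
  have hVo : IsOpen V := by
    rw [hVdef]
    exact (isOpen_lt (f := fun v : Fin 3 → ℂ => ‖v 0 - e.1.1‖) (by fun_prop)
      continuous_const).inter
      (isOpen_lt (f := fun v : Fin 3 → ℂ => ‖v 1 * v 2 ^ 6‖) (by fun_prop) continuous_const)
  have hv0 : ∀ v ∈ V, v 0 ≠ 0 := fun v hv => ball_ne ((hmemV v).mp hv).1
  have hvi : ∀ v ∈ V, ‖v 1 * v 2 ^ 6‖ < 1 / 2 := fun v hv => ((hmemV v).mp hv).2
  let m : V → Cs × Vi := fun v => (⟨v.1 0, hv0 v.1 v.2⟩, ⟨(v.1 1, v.1 2), hvi v.1 v.2⟩)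
  have hmc : Continuous m := by
    apply Continuous.prodMk
    · exact Continuous.subtype_mk ((continuous_apply 0).comp continuous_subtype_val) _
    · exact Continuous.subtype_mk (((continuous_apply 1).comp continuous_subtype_val).prodMk
        ((continuous_apply 2).comp continuous_subtype_val)) _
  have hmo : IsOpenMap m := by
    refine open_m V hVo m (fun y => (y.1.1, y.2.1)) ?_ ?_ (fun v => rfl)
    · exact (continuous_subtype_val.comp continuous_fst).prodMk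
        (continuous_subtype_val.comp continuous_snd)
    · intro y y' hy
      have h2 := congrArg Prod.fst hy
      have h3 := congrArg Prod.snd hy
      exact Prod.ext (Subtype.ext h2) (Subtype.ext h3)
  have hφd : ∀ v ∈ V, DifferentiableAt ℂ (fun w => Ph φ (w 0) (Xi w)) v := fun v hv =>
    ph_diff hE (hv0 v hv) (Xi_diff (hvi v hv))
  have hmi : Function.Injective (fun v : V => ptI hE (m v)) := by
    intro v v' hvv
    obtain ⟨k, hk⟩ := (h1 n φ hE).2 _ _ hvv
    have h2 : ((gI ^ k) (m v)).1.1 = (m v).1.1 / 2 ^ k :=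
      zpow_half gI (fun y : Cs × Vi => y.1.1) (fun y => rfl) k (m v)
    rw [hk] at h2
    have hk0 : k = 0 := two_zpow ((hmemV v.1).mp v.2).1 ((hmemV v'.1).mp v'.2).1 k h2
    subst hk0
    have h3 : m v = m v' := by simpa using hk
    have h4 : v.1 0 = v'.1 0 := congrArg (fun y : Cs × Vi => y.1.1) h3
    have h5 : v.1 1 = v'.1 1 := congrArg (fun y : Cs × Vi => y.2.1.1) h3
    have h6 : v.1 2 = v'.1 2 := congrArg (fun y : Cs × Vi => y.2.1.2) h3
    apply Subtype.ext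
    funext i
    fin_cases i
    · exact h4
    · exact h5
    · exact h6
  refine ⟨{ V := V
            a := fun v => v 1
            φ := fun v => Ph φ (v 0) (Xi v)
            isOpen_V := hVo
            holo_a := ?_
            holo_φ := fun v hv => (hφd v hv).differentiableWithinAt
            φ_ne := fun v hv => Ph_ne hE (hv0 v hv) (vecI_ne ⟨(v 1, v 2), hvi v hv⟩)
            mem := fun v hv => (ptI hE (m ⟨v, hv⟩)).2
            openEmbedding := ?_
            immersion := ?_ }, ![e.1.1, e.2.1.1, e.2.1.2], ?_, ?_, ?_⟩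
  · fun_prop
  · exact Topology.IsOpenEmbedding.of_continuous_injective_isOpenMap (hcont.comp hmc) hmi
      (hopen.comp hmo)
  · intro v hv k hk1 hc
    obtain ⟨c, hc⟩ := hc
    obtain ⟨D, hD⟩ := Xi_der (hvi v hv) k
    have hline := ph_line hE (hv0 v hv) (Xi_diff (hvi v hv)) _ hD
    have hco : ∀ (i : Fin 3) (j : Fin n), (![3 * v 2 ^ 2 * k 2, k 2, D] : Fin 3 → ℂ) i * φ i (v 0) j +
        Xi v i * (k 0 * deriv (φ i) (v 0) j) = c * (Xi v i * φ i (v 0) j) := by
      intro i j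
      rw [← hline i j, hc]
      rfl
    have hk1' : k 1 = 0 := by
      have h2 : fderiv ℂ (fun v : Fin 3 → ℂ => v 1) v = ContinuousLinearMap.proj 1 :=
        (ContinuousLinearMap.proj (R := ℂ) (φ := fun _ : Fin 3 => ℂ) 1).fderiv
      rw [h2] at hk1
      exact hk1
    have hX2 : Xi v 2 ≠ 0 := Xi_ne2 (hvi v hv)
    have hk0 : k 0 = 0 := by
      by_contra hk
      apply hE.tan 2 (v 0) (hv0 v hv) ((c * Xi v 2 - D) / (Xi v 2 * k 0))
      funext j
      have h2 := hco 2 j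
      simp only [Matrix.cons_val] at h2
      simp only [Pi.smul_apply, smul_eq_mul]
      field_simp
      linear_combination h2
    have hk2 : k 2 = c * v 2 := by
      by_contra hcn
      apply hE.ne 1 (v 0) (hv0 v hv)
      funext j
      have h2 := hco 1 j
      have h3 : Xi v 1 = v 2 := rfl
      rw [h3] at h2
      simp only [Matrix.cons_val_one, Matrix.cons_val_zero, hk0, zero_mul, mul_zero, add_zero] at h2
      have h4 : (k 2 - c * v 2) * φ 1 (v 0) j = 0 := by linear_combination h2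
      exact (mul_eq_zero.mp h4).resolve_left (sub_ne_zero.mpr hcn)
    have hk2' : 3 * v 2 ^ 2 * k 2 = c * v 2 ^ 3 := by
      by_contra hcn
      apply hE.ne 0 (v 0) (hv0 v hv)
      funext j
      have h2 := hco 0 j
      have h3 : Xi v 0 = v 2 ^ 3 := rfl
      rw [h3] at h2
      simp only [Matrix.cons_val_zero, hk0, zero_mul, mul_zero, add_zero] at h2
      have h4 : (3 * v 2 ^ 2 * k 2 - c * v 2 ^ 3) * φ 0 (v 0) j = 0 := by linear_combination h2
      exact (mul_eq_zero.mp h4).resolve_left (sub_ne_zero.mpr hcn)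
    have hk20 : k 2 = 0 := by
      have h4 : c * v 2 ^ 3 = 0 := by
        rw [hk2] at hk2'
        linear_combination (1 / 2 : ℂ) * hk2'
      rcases mul_eq_zero.mp h4 with h5 | h5
      · rw [hk2, h5, zero_mul]
      · have h6 : v 2 = 0 := by
          exact pow_eq_zero_iff (by norm_num) |>.mp h5
        rw [hk2, h6, mul_zero]
    funext i
    fin_cases i
    · exact hk0
    · exact hk1'
    · exact hk20
  · rw [hmemV]
    have h2 : e.1.1 ≠ 0 := e.1.2
    have h3 : 0 < ‖e.1.1‖ := norm_pos_iff.mpr h2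
    refine ⟨?_, e.2.2⟩
    simp only [Matrix.cons_val_zero, sub_self, norm_zero]
    linarith
  · rfl
  · refine ⟨![0, 1, 0], ?_⟩
    have h2 : fderiv ℂ (fun v : Fin 3 → ℂ => v 1) ![e.1.1, e.2.1.1, e.2.1.2] =
        ContinuousLinearMap.proj 1 :=
      (ContinuousLinearMap.proj (R := ℂ) (φ := fun _ : Fin 3 => ℂ) 1).fderiv
    change fderiv ℂ (fun v : Fin 3 → ℂ => v 1) ![e.1.1, e.2.1.1, e.2.1.2] ![0, 1, 0] ≠ 0
    rw [h2]
    exact one_ne_zero

end Pool.Agent.Q224.HF.LPI
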