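import Pool.Agent.Q293.HF.Stm

/-!
Project HF (helper293): common lemmas for the local parametrisations.
-/

set_option autoImplicit false

open Topology Filter
open scoped LinearAlgebra.Projectivization

namespace Pool.Agent.Q224.HF.Par

open Pool.Agent.Q293.HF Pool.Agent.Helper922.HB

lemma ball_ne {a z : ℂ} (ha : ‖a - z‖ < ‖z‖ / 4) : a ≠ 0 := by
  intro h
  rw [h, zero_sub, norm_neg] at ha
  have := norm_nonneg z
  linarith

lemma ball_bounds {a z : ℂ} (ha : ‖a - z‖ < ‖z‖ / 4) :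
    3 / 4 * ‖z‖ < ‖a‖ ∧ ‖a‖ < 5 / 4 * ‖z‖ := by
  constructor
  · have h1 : ‖z‖ ≤ ‖a‖ + ‖a - z‖ := by
      have h2 := norm_sub_le a (a - z)
      rw [sub_sub_cancel] at h2
      exact h2
    linarith
  · have h1 : ‖a‖ ≤ ‖a - z‖ + ‖z‖ := by
      have h2 := norm_add_le (a - z) z
      rw [sub_add_cancel] at h2
      exact h2
    linarith

lemma two_zpow {a b z : ℂ} (ha : ‖a - z‖ < ‖z‖ / 4) (hb : ‖b - z‖ < ‖z‖ / 4) (k : ℤ)
    (hk : b = a / 2 ^ k) : k = 0 := by
  obtain ⟨ha1, ha2⟩ := ball_bounds ha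
  obtain ⟨hb1, hb2⟩ := ball_bounds hb
  have hz : 0 ≤ ‖z‖ := norm_nonneg z
  have h2 : (0 : ℝ) < 2 ^ k := by positivity
  have hn : ‖b‖ * 2 ^ k = ‖a‖ := by
    rw [hk, norm_div, norm_zpow, Complex.norm_ofNat]
    field_simp
  rcases lt_trichotomy k 0 with h | h | h
  · exfalso
    have h3 : (2 : ℝ) ^ k ≤ 2 ^ (-1 : ℤ) := zpow_le_zpow_right₀ (by norm_num) (by omega)
    rw [zpow_neg_one] at h3
    nlinarith [norm_nonneg b]
  · exact h
  · exfalso
    have h3 : (2 : ℝ) ^ (1 : ℤ) ≤ 2 ^ k := zpow_le_zpow_right₀ (by norm_num) (by omega)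
    rw [zpow_one] at h3
    nlinarith [norm_nonneg b]

lemma zpow_half {E : Type} [TopologicalSpace E] (g : E ≃ₜ E) (f : E → ℂ)
    (hf : ∀ e, f (g e) = f e / 2) (k : ℤ) : ∀ e, f ((g ^ k) e) = f e / 2 ^ k := by
  induction k using Int.induction_on with
  | zero => intro e; simp
  | succ k ih =>
    intro e
    have h1 : (g ^ ((k : ℤ) + 1)) e = (g ^ (k : ℤ)) (g e) := by
      rw [zpow_add_one]
      rfl
    rw [h1, ih, hf, zpow_add_one₀ two_ne_zero]
    field_simp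
  | pred k ih =>
    intro e
    have h1 : (g ^ (-(k : ℤ) - 1)) (g e) = (g ^ (-(k : ℤ))) e := by
      have h2 : g ^ (-(k : ℤ)) = g ^ (-(k : ℤ) - 1) * g := by
        rw [← zpow_add_one]
        congr 1
        ring
      rw [h2]
      rfl
    have h3 : ∀ e, f ((g ^ (-(k : ℤ) - 1)) e) = f e * 2 ^ ((k : ℤ) + 1) := by
      intro e
      have h4 : e = g (g.symm e) := (g.apply_symm_apply e).symm
      have h5 : f e = f (g.symm e) / 2 := by
        conv_lhs => rw [h4, hf]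
      have h6 : (g ^ (-(k : ℤ) - 1)) e = (g ^ (-(k : ℤ))) (g.symm e) := by
        have h7 : g ^ (-(k : ℤ) - 1) = g ^ (-(k : ℤ)) * g⁻¹ := by
          rw [zpow_sub_one]
        rw [h7]
        rfl
      rw [h6, ih, h5, zpow_neg, zpow_add_one₀ two_ne_zero]
      field_simp
    rw [h3]
    have h8 : (2 : ℂ) ^ (-(k : ℤ) - 1) = (2 ^ ((k : ℤ) + 1))⁻¹ := by
      rw [← zpow_neg]
      congr 1
      ring
    rw [h8, div_inv_eq_mul]

/-- The coordinates. -/
def coord : (Fin 3 → ℂ) ≃ₜ ℂ × (ℂ × ℂ) where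
  toFun v := (v 0, (v 1, v 2))
  invFun p := ![p.1, p.2.1, p.2.2]
  left_inv v := by
    funext i
    fin_cases i <;> rfl
  right_inv p := rfl
  continuous_toFun := by fun_prop
  continuous_invFun := by
    apply continuous_pi
    intro i
    fin_cases i
    · exact continuous_fst
    · exact continuous_fst.comp continuous_snd
    · exact continuous_snd.comp continuous_snd

lemma open_m {Y : Type} [TopologicalSpace Y] (V : Set (Fin 3 → ℂ)) (hV : IsOpen V) (m : V → Y)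
    (i : Y → ℂ × (ℂ × ℂ)) (hc : Continuous i) (hi : Function.Injective i)
    (h : ∀ v : V, i (m v) = (v.1 0, (v.1 1, v.1 2))) : IsOpenMap m := by
  intro U hU
  have h1 : IsOpen ((fun v : V => i (m v)) '' U) := by
    have h2 : (fun v : V => i (m v)) = coord ∘ (Subtype.val : V → (Fin 3 → ℂ)) := by
      funext v
      exact h v
    rw [h2]
    exact (coord.isOpenMap.comp hV.isOpenMap_subtype_val) U hU
  have h3 : m '' U = i ⁻¹' ((fun v : V => i (m v)) '' U) := by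
    ext y
    constructor
    · rintro ⟨v, hv, rfl⟩
      exact ⟨v, hv, rfl⟩
    · rintro ⟨v, hv, hvy⟩
      exact ⟨v, hv, hi hvy⟩
  rw [h3]
  exact h1.preimage hc

lemma ph_diff {n : ℕ} {φ : Fin 3 → ℂ → Fin n → ℂ} (h : Emb φ) {Xf : (Fin 3 → ℂ) → Fin 3 → ℂ}
    {v : Fin 3 → ℂ} (hv : v 0 ≠ 0) (hX : ∀ i, DifferentiableAt ℂ (fun w => Xf w i) v) :
    DifferentiableAt ℂ (fun w => Ph φ (w 0) (Xf w)) v := by
  rw [differentiableAt_pi]
  rintro ⟨i, j⟩
  have h1 : DifferentiableAt ℂ (φ i) (v 0) :=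
    (h.holo i (v 0) hv).differentiableAt (isOpen_compl_singleton.mem_nhds hv)
  have h2 : DifferentiableAt ℂ (fun z => φ i z j) (v 0) := (differentiableAt_pi.mp h1) j
  have h3 : DifferentiableAt ℂ (fun w : Fin 3 → ℂ => w 0) v := differentiableAt_apply 0 v
  have h4 : DifferentiableAt ℂ (fun w : Fin 3 → ℂ => φ i (w 0) j) v :=
    DifferentiableAt.comp (g := fun z => φ i z j) (f := fun w : Fin 3 → ℂ => w 0) v h2 h3
  exact (hX i).mul h4

lemma ph_line {n : ℕ} {φ : Fin 3 → ℂ → Fin n → ℂ} (h : Emb φ) {Xf : (Fin 3 → ℂ) → Fin 3 → ℂ}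
    {v k : Fin 3 → ℂ} (hv : v 0 ≠ 0) (hX : ∀ i, DifferentiableAt ℂ (fun w => Xf w i) v)
    (dX : Fin 3 → ℂ) (hd : ∀ i, HasDerivAt (fun s : ℂ => Xf (v + s • k) i) (dX i) 0)
    (i : Fin 3) (j : Fin n) :
    fderiv ℂ (fun w => Ph φ (w 0) (Xf w)) v k (i, j) =
      dX i * φ i (v 0) j + Xf v i * (k 0 * deriv (φ i) (v 0) j) := by
  have hF := (ph_diff h hv hX).hasFDerivAt
  have hline : HasDerivAt (fun s : ℂ => v + s • k) k 0 := by
    simpa using ((hasDerivAt_id (0 : ℂ)).smul_const k).const_add v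
  have hF' : HasFDerivAt (fun w => Ph φ (w 0) (Xf w))
      (fderiv ℂ (fun w => Ph φ (w 0) (Xf w)) v) ((fun s : ℂ => v + s • k) 0) := by
    simpa using hF
  have h1 := hF'.comp_hasDerivAt (0 : ℂ) hline
  have h2 := hasDerivAt_pi.mp h1 (i, j)
  have h3 : HasDerivAt (fun z => φ i z j) (deriv (φ i) (v 0) j) (v 0) := by
    have h4 : DifferentiableAt ℂ (φ i) (v 0) :=
      (h.holo i (v 0) hv).differentiableAt (isOpen_compl_singleton.mem_nhds hv)
    exact hasDerivAt_pi.mp h4.hasDerivAt j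
  have h5 : HasDerivAt (fun s : ℂ => (v + s • k) 0) (k 0) 0 := hasDerivAt_pi.mp hline 0
  have h6 : HasDerivAt (fun s : ℂ => φ i ((v + s • k) 0) j) (deriv (φ i) (v 0) j * k 0) 0 := by
    have h7 : HasDerivAt (fun z => φ i z j) (deriv (φ i) (v 0) j) ((fun s : ℂ => (v + s • k) 0) 0) := by
      simpa using h3
    exact HasDerivAt.comp (h₂ := fun z => φ i z j) (h := fun s : ℂ => (v + s • k) 0) 0 h7 h5
  have h8 := (hd i).mul h6
  have h9 := h2.unique h8
  refine h9.trans ?_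
  simp only [zero_smul, add_zero]
  ring

end Pool.Agent.Q224.HF.Par
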